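import Pool.Agent.H902R3.XI.Fin
import Pool.Agent.H902R3.XI.N2
import Pool.Agent.H73W.XI.A3
import Pool.Agent.H393R3.XI.A1
import Pool.Agent.H385R3.XI.A2
import Pool.Agent.H164R3.XI.TG
import Pool.Agent.H301X.Gup
import Pool.Agent.H54.XI.Glow
import Pool.Agent.H941R3.XI.A4
import Pool.Agent.H349R3.XI.Approx
import Pool.Agent.H722R5.XI.M1
import Pool.Agent.H663R5.XIM2
import Pool.Agent.H2XI.M3
import Pool.Agent.H924R3.XI.TaskM4
import Pool.Agent.H768R3.XI.Z1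
import Pool.Agent.H468R3.XI.Z2
import Pool.Agent.H92R3.XI.Z3
import Pool.Agent.H875R3.XI.N1
import Pool.Agent.H46R3.XI.N4

/-!
# Real zeros of the deformed Riemann Xi functions: every negative parameter
-/

open Filter Topology
open scoped ENNReal

namespace Pool.Agent.Results.MP_023270_nt.EveryNegativeLambda

open Pool.Agent.H902R3.XI

/-- Almost all zeros of `Ξ_λ` are real:
`#{real zeros z, |z| ≤ T} / #{zeros z, |Re z| ≤ T} → 1` as `T → ∞`. -/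
def AlmostAllReal (lam : ℝ) : Prop :=
  Tendsto (fun T : ℝ => cnt (Xi lam) {z : ℂ | z.im = 0 ∧ ‖z‖ ≤ T} /
    cnt (Xi lam) {z : ℂ | |z.re| ≤ T}) atTop (𝓝 1)

theorem approx : TaskApprox :=
  taskApprox Pool.Agent.H393R3.XI.taskA1
    (Pool.Agent.H73W.XI.taskA3 Pool.Agent.H385R3.XI.taskA2 Pool.Agent.H164R3.XI.TG.taskG
      Pool.Agent.H301X.taskGup (Pool.Agent.H54.XI.taskGlow Pool.Agent.H164R3.XI.TG.taskG))
    (Pool.Agent.H941R3.XI.taskA4 Pool.Agent.H385R3.XI.taskA2 Pool.Agent.H164R3.XI.TG.taskG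
      Pool.Agent.H301X.taskGup (Pool.Agent.H54.XI.taskGlow Pool.Agent.H164R3.XI.TG.taskG))

/-- For **every** `λ < 0`: the number of real zeros of `Ξ_λ` in `|z| ≤ T` is at most `C T log T`,
the number of non-real zeros in `|Re z| ≤ T` is at least `c T log T`, the proportion of real zeros
is eventually at most some `q < 1`; in particular it is not true that almost all zeros of `Ξ_λ`
are real. -/
theorem result : ∀ lam : ℝ, lam < 0 →
    (∃ c C T₀ : ℝ, 0 < c ∧ 0 < C ∧ ∀ T : ℝ, T₀ ≤ T →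
      cnt (Xi lam) {z : ℂ | z.im = 0 ∧ ‖z‖ ≤ T} ≤ ENNReal.ofReal (C * (T * Real.log T)) ∧
      ENNReal.ofReal (c * (T * Real.log T)) ≤ cnt (Xi lam) {z : ℂ | z.im ≠ 0 ∧ |z.re| ≤ T}) ∧
    (∃ q : ℝ≥0∞, q < 1 ∧ ∀ᶠ T : ℝ in atTop,
      cnt (Xi lam) {z : ℂ | z.im = 0 ∧ ‖z‖ ≤ T} / cnt (Xi lam) {z : ℂ | |z.re| ≤ T} ≤ q) ∧
    ¬ AlmostAllReal lam := by
  intro lam hlam
  have h1 := main approx
    (Pool.Agent.H924R3.XI.taskM4 taskM1 Pool.Agent.H663R5.XIM2.taskM2 Pool.Agent.H2XI.taskM3)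
    (Pool.Agent.H92R3.XI.taskZ3 taskZ1 Pool.Agent.H468R3.XI.taskZ2)
    Pool.Agent.H875R3.XI.taskN1 taskN2 taskN4 lam hlam
  have h2 := ratio lam h1
  refine ⟨h1, h2, ?_⟩
  intro h3
  obtain ⟨q, hq, h4⟩ := h2
  have h5 : (1 : ℝ≥0∞) ≤ q := le_of_tendsto h3 h4
  exact absurd h5 (not_le.mpr hq)

end Pool.Agent.Results.MP_023270_nt.EveryNegativeLambda
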